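import Pool.Agent.Helper95.AB.GoalsW

/-! Project AB: packets L2 and HARDY of helper95. -/

open MeasureTheory Set Filter Topology
open scoped ContDiff

noncomputable section

namespace Pool.Agent.Helper82.AB

open Pool.Agent.Helper24.AB Pool.Agent.Helper95.AB

/-- gauge inequality -/
theorem gauge (f : ℝ → ℂ) (hf : ContDiff ℝ 1 f) (A : ℝ → ℝ) (hA : Continuous A) (a b : ℝ)
    (hab : a ≤ b) :
    ‖Complex.exp (Complex.I * ((∫ t in a..b, A t : ℝ) : ℂ)) * f b - f a‖ ≤
      ∫ x in a..b, ‖deriv f x + Complex.I * A x * f x‖ := by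
  set F : ℝ → ℝ := fun x => ∫ t in a..x, A t with hF
  have hFd : ∀ x, HasDerivAt F (A x) x := fun x =>
    intervalIntegral.integral_hasDerivAt_right (hA.intervalIntegrable _ _)
      hA.aestronglyMeasurable.stronglyMeasurableAtFilter hA.continuousAt
  have hfd : ∀ x, HasDerivAt f (deriv f x) x := fun x =>
    ((hf.differentiable one_ne_zero) x).hasDerivAt
  set k : ℝ → ℂ := fun x => Complex.exp (Complex.I * (F x : ℂ)) * f x with hk
  have hkd : ∀ x, HasDerivAt k (Complex.exp (Complex.I * (F x : ℂ)) *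
      (deriv f x + Complex.I * A x * f x)) x := by
    intro x
    have h1 : HasDerivAt (fun x => ((F x : ℝ) : ℂ)) ((A x : ℝ) : ℂ) x := (hFd x).ofReal_comp
    have h2 := ((h1.const_mul Complex.I).cexp).mul (hfd x)
    refine h2.congr_deriv ?_
    ring
  have hcf : Continuous (deriv f) := hf.continuous_deriv le_rfl
  have hFc : Continuous F := continuous_iff_continuousAt.2 fun x => (hFd x).continuousAt
  have hc : Continuous fun x => Complex.exp (Complex.I * (F x : ℂ)) *
      (deriv f x + Complex.I * A x * f x) := by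
    have := hf.continuous
    fun_prop
  have h3 : ∫ x in a..b, Complex.exp (Complex.I * (F x : ℂ)) *
      (deriv f x + Complex.I * A x * f x) = k b - k a :=
    intervalIntegral.integral_eq_sub_of_hasDerivAt (fun x _ => hkd x) (hc.intervalIntegrable _ _)
  have h4 : k a = f a := by simp [hk, hF]
  have h5 : k b - f a = Complex.exp (Complex.I * ((∫ t in a..b, A t : ℝ) : ℂ)) * f b - f a := rfl
  rw [← h5, ← h4, ← h3]
  refine (intervalIntegral.norm_integral_le_integral_norm hab).trans (le_of_eq ?_)
  refine intervalIntegral.integral_congr fun x _ => ?_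
  rw [norm_mul, Complex.norm_exp_I_mul_ofReal, one_mul]

/-- Cauchy-Schwarz for a continuous function -/
theorem cs (h : ℝ → ℝ) (hh : Continuous h) (a b : ℝ) (hab : a < b) :
    (∫ x in a..b, h x) ^ 2 ≤ (b - a) * ∫ x in a..b, h x ^ 2 := by
  set m : ℝ := (∫ x in a..b, h x) / (b - a) with hm
  have hba : 0 < b - a := by linarith
  have h0 : 0 ≤ ∫ x in a..b, (h x - m) ^ 2 :=
    intervalIntegral.integral_nonneg hab.le fun x _ => sq_nonneg _
  have e : ∫ x in a..b, (h x - m) ^ 2 =
      (∫ x in a..b, h x ^ 2) - 2 * m * (∫ x in a..b, h x) + m ^ 2 * (b - a) := by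
    have : (fun x => (h x - m) ^ 2) = fun x => (h x ^ 2 - 2 * m * h x) + m ^ 2 := by
      funext x; ring
    rw [this, intervalIntegral.integral_add, intervalIntegral.integral_sub,
      intervalIntegral.integral_const_mul, intervalIntegral.integral_const]
    · simp only [smul_eq_mul]; ring
    all_goals exact Continuous.intervalIntegrable (by fun_prop) _ _
  rw [e] at h0
  have h1 : (∫ x in a..b, h x) = m * (b - a) := by rw [hm]; field_simp
  rw [h1] at h0 ⊢
  nlinarith [mul_nonneg hba.le h0]

theorem hardy : S_HARDY := by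
  intro f A hf hA pf pA
  set E : ℝ := ∫ x in (0 : ℝ)..(2 * Real.pi), ‖deriv f x + Complex.I * A x * f x‖ ^ 2 with hE
  set T : ℝ := ∫ x in (0 : ℝ)..(2 * Real.pi), A x with hT
  have hpi := Real.pi_pos
  have hcf : Continuous (deriv f) := hf.continuous_deriv le_rfl
  have hfc := hf.continuous
  set h : ℝ → ℝ := fun x => ‖deriv f x + Complex.I * A x * f x‖ with hh
  have hhc : Continuous h := by fun_prop
  have pdf : ∀ x, deriv f (x + 2 * Real.pi) = deriv f x := by
    intro x
    rw [← deriv_comp_add_const]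
    congr 1
    funext y
    exact pf y
  have hp : Function.Periodic h (2 * Real.pi) := by
    intro x
    simp only [hh, pdf, pf, pA]
  have pA' : Function.Periodic A (2 * Real.pi) := pA
  set s : ℝ := dZ (T / (2 * Real.pi)) with hs
  have hs0 : 0 ≤ s := abs_nonneg _
  have h1 : ‖Complex.exp (Complex.I * (T : ℂ)) - 1‖ = 2 * |Real.sin (T / 2)| := by
    rw [Complex.norm_exp_I_mul_ofReal_sub_one, Real.norm_eq_abs, abs_mul]; norm_num
  have h2 : 2 * s ≤ |Real.sin (T / 2)| := by
    set y : ℝ := T / (2 * Real.pi) with hy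
    have hTy : T / 2 = Real.pi * y := by rw [hy]; field_simp
    have hd : |y - round y| ≤ 1 / 2 := abs_sub_round y
    have e1 : |Real.sin (T / 2)| = |Real.sin (Real.pi * (y - round y))| := by
      have : Real.pi * (y - round y) = T / 2 - (round y : ℤ) * Real.pi := by rw [hTy]; ring
      rw [this, Real.sin_sub_int_mul_pi, abs_mul, abs_neg_one_zpow, one_mul]
    have e2 : |Real.sin (Real.pi * (y - round y))| = Real.sin (Real.pi * |y - round y|) := by
      have hnn : 0 ≤ Real.sin (Real.pi * |y - round y|) :=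
        Real.sin_nonneg_of_nonneg_of_le_pi (by positivity) (by nlinarith)
      rcases abs_choice (y - round y) with hc | hc
      · rw [hc] at hnn ⊢; exact abs_of_nonneg hnn
      · rw [hc] at hnn ⊢
        rw [mul_neg, Real.sin_neg] at hnn ⊢
        exact abs_of_nonpos (by linarith)
    rw [e1, e2]
    have h3 := Real.mul_le_sin (x := Real.pi * |y - round y|) (by positivity) (by nlinarith)
    have h4 : 2 / Real.pi * (Real.pi * |y - round y|) = 2 * |y - round y| := by field_simp
    rw [h4] at h3
    exact h3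
  have h3 : ∀ x, 16 * s ^ 2 * ‖f x‖ ^ 2 ≤ 2 * Real.pi * E := by
    intro x
    have g := gauge f hf A hA x (x + 2 * Real.pi) (by linarith)
    rw [pf x, pA'.intervalIntegral_add_eq x 0] at g
    have g2 : (∫ y in x..x + 2 * Real.pi, ‖deriv f y + Complex.I * A y * f y‖) =
        ∫ y in (0 : ℝ)..(0 + 2 * Real.pi), h y := hp.intervalIntegral_add_eq x 0
    rw [g2] at g
    rw [zero_add] at g
    have g3 : Complex.exp (Complex.I * (T : ℂ)) * f x - f x =
        (Complex.exp (Complex.I * (T : ℂ)) - 1) * f x := by ring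
    rw [← hT, g3, norm_mul, h1] at g
    have g4 : 4 * s * ‖f x‖ ≤ ∫ y in (0 : ℝ)..(2 * Real.pi), h y := by
      refine le_trans ?_ g
      have := norm_nonneg (f x)
      nlinarith
    have g5 := cs h hhc 0 (2 * Real.pi) (by linarith)
    have g6 : (4 * s * ‖f x‖) ^ 2 ≤ (∫ y in (0 : ℝ)..(2 * Real.pi), h y) ^ 2 :=
      pow_le_pow_left₀ (by positivity) g4 2
    calc 16 * s ^ 2 * ‖f x‖ ^ 2 = (4 * s * ‖f x‖) ^ 2 := by ring
      _ ≤ _ := g6
      _ ≤ _ := g5
      _ = 2 * Real.pi * E := by rw [sub_zero]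
  have h4 : ∫ x in (0 : ℝ)..(2 * Real.pi), 16 * s ^ 2 * ‖f x‖ ^ 2 ≤
      ∫ x in (0 : ℝ)..(2 * Real.pi), 2 * Real.pi * E :=
    intervalIntegral.integral_mono (by linarith)
      (Continuous.intervalIntegrable (by fun_prop) _ _)
      (Continuous.intervalIntegrable (by fun_prop) _ _) h3
  rw [intervalIntegral.integral_const_mul, intervalIntegral.integral_const, smul_eq_mul] at h4
  nlinarith

theorem l2 : S_L2 := by
  intro α β f A V hαβ hf hA hV hV0
  set A' : ℝ → ℝ := IccExtend hαβ.le (Icc α β |>.domRestrict A) with hA'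
  have hA'c : Continuous A' := by
    rw [hA']
    exact (continuousOn_iff_continuous_domRestrict.1 hA).Icc_extend'
  have hAA : ∀ x ∈ Icc α β, A' x = A x := fun x hx => by
    rw [hA', IccExtend_of_mem _ _ hx]; rfl
  set h : ℝ → ℝ := fun x => ‖deriv f x + Complex.I * A' x * f x‖ with hh
  have hcf : Continuous (deriv f) := hf.continuous_deriv le_rfl
  have hfc := hf.continuous
  have hhc : Continuous h := by fun_prop
  set D : ℝ := ∫ x in α..β, ‖deriv f x + Complex.I * A x * f x‖ ^ 2 with hD
  have hDh : D = ∫ x in α..β, h x ^ 2 := by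
    rw [hD]
    refine intervalIntegral.integral_congr fun x hx => ?_
    rw [uIcc_of_le hαβ.le] at hx
    simp only [hh]
    rw [hAA x hx]
  have hD0 : 0 ≤ D := by
    rw [hDh]; exact intervalIntegral.integral_nonneg hαβ.le fun x _ => sq_nonneg _
  have hba : 0 < β - α := by linarith
  have hint : ∀ x ∈ Icc α β, ∀ y ∈ Icc α β, x ≤ y →
      ∫ t in x..y, h t ≤ ∫ t in α..β, h t := by
    intro x hx y hy hxy
    exact intervalIntegral.integral_mono_interval hx.1 hxy hy.2
      (Filter.Eventually.of_forall fun t => norm_nonneg _) (hhc.intervalIntegrable _ _)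
  have key : ∀ x ∈ Icc α β, ∀ y ∈ Icc α β, ‖f x‖ ^ 2 ≤ 2 * ‖f y‖ ^ 2 + 2 * ((β - α) * D) := by
    intro x hx y hy
    have h1 : ‖f x‖ ≤ ‖f y‖ + ∫ t in α..β, h t := by
      rcases le_total x y with hxy | hxy
      · have g := gauge f hf A' hA'c x y hxy
        have g2 := hint x hx y hy hxy
        have g3 : ‖Complex.exp (Complex.I * ((∫ t in x..y, A' t : ℝ) : ℂ)) * f y‖ = ‖f y‖ := by
          rw [norm_mul, Complex.norm_exp_I_mul_ofReal, one_mul]
        have g4 := norm_sub_norm_le (f x)
          (Complex.exp (Complex.I * ((∫ t in x..y, A' t : ℝ) : ℂ)) * f y)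
        rw [norm_sub_rev, g3] at g4
        linarith
      · have g := gauge f hf A' hA'c y x hxy
        have g2 := hint y hy x hx hxy
        have g3 : ‖Complex.exp (Complex.I * ((∫ t in y..x, A' t : ℝ) : ℂ)) * f x‖ = ‖f x‖ := by
          rw [norm_mul, Complex.norm_exp_I_mul_ofReal, one_mul]
        have g4 := norm_sub_norm_le
          (Complex.exp (Complex.I * ((∫ t in y..x, A' t : ℝ) : ℂ)) * f x) (f y)
        rw [g3] at g4
        linarith
    have h2 := cs h hhc α β hαβ
    rw [← hDh] at h2
    have h3 := norm_nonneg (f x)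
    have h4 := norm_nonneg (f y)
    nlinarith [sq_nonneg (‖f y‖ - ∫ t in α..β, h t)]
  have hVi : IntervalIntegrable V volume α β :=
    (intervalIntegrable_iff_integrableOn_Icc_of_le hαβ.le).2 hV
  set v : ℝ := ∫ x in α..β, V x with hv
  set w : ℝ := ∫ x in α..β, V x * ‖f x‖ ^ 2 with hw
  have hVf : IntervalIntegrable (fun x => V x * ‖f x‖ ^ 2) volume α β :=
    hVi.mul_continuousOn (by fun_prop)
  have k2 : ∀ x ∈ Icc α β, v * ‖f x‖ ^ 2 ≤ 2 * w + 2 * ((β - α) * D) * v := by
    intro x hx
    have : ∫ y in α..β, V y * ‖f x‖ ^ 2 ≤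
        ∫ y in α..β, (2 * (V y * ‖f y‖ ^ 2) + 2 * ((β - α) * D) * V y) := by
      refine intervalIntegral.integral_mono_on hαβ.le (hVi.mul_const _)
        ((hVf.const_mul _).add (hVi.const_mul _)) fun y hy => ?_
      have := mul_le_mul_of_nonneg_left (key x hx y hy) (hV0 y hy)
      linarith
    rw [intervalIntegral.integral_mul_const, intervalIntegral.integral_add (hVf.const_mul _)
      (hVi.const_mul _), intervalIntegral.integral_const_mul,
      intervalIntegral.integral_const_mul] at this
    exact this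
  have k3 : ∫ x in α..β, v * ‖f x‖ ^ 2 ≤ ∫ x in α..β, (2 * w + 2 * ((β - α) * D) * v) := by
    refine intervalIntegral.integral_mono_on hαβ.le
      (Continuous.intervalIntegrable (by fun_prop) _ _)
      (Continuous.intervalIntegrable (by fun_prop) _ _) fun x hx => k2 x hx
  rw [intervalIntegral.integral_const_mul, intervalIntegral.integral_const, smul_eq_mul] at k3
  calc v * ∫ x in α..β, ‖f x‖ ^ 2 ≤ (β - α) * (2 * w + 2 * ((β - α) * D) * v) := k3
    _ = _ := by ring

end Pool.Agent.Helper82.AB
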